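/-
MP_1882ea_al.LocalZeros.  Zeros of the character table of S_n which are forced by few cycles.
The definitions of the statement are all in this file; the proof is in Pool/Agent/Lib/ZT68.
-/
import Mathlib
import Pool.Agent.Lib.ZT68.Fin4

namespace Pool.Agent.Results.MP_1882ea_al.LocalZeros

open Finset

/-- hook length of the cell `(i, j)` of `Y` (0-based): arm + leg + 1 -/
def hookLen (Y : YoungDiagram) (i j : ℕ) : ℕ := (Y.rowLen i - j) + (Y.colLen j - i) - 1

/-- `Y` is a `t`-core: no hook length is divisible by `t` -/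
def IsCore (t : ℕ) (Y : YoungDiagram) : Prop := ∀ i j, (i, j) ∈ Y → ¬ t ∣ hookLen Y i j

/-- leg length of the cell `(i, j)` -/
def leg (Y : YoungDiagram) (i j : ℕ) : ℕ := Y.colLen j - i - 1

open Classical in
/-- remove the rim hook of the cell `(i, j)`: the cells `(a, b)` with `i ≤ a`, `j ≤ b` for which
`(a + 1, b + 1)` is not a cell of `Y` -/
noncomputable def rem (Y : YoungDiagram) (i j : ℕ) : YoungDiagram where
  cells := Y.cells.filter (fun c => ¬ (i ≤ c.1 ∧ j ≤ c.2 ∧ (c.1 + 1, c.2 + 1) ∉ Y))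
  isLowerSet := by
    rintro ⟨a, b⟩ ⟨a', b'⟩ hle h
    have hle' : a' ≤ a ∧ b' ≤ b := hle
    simp only [coe_filter, Set.mem_ofPred_eq, YoungDiagram.mem_cells] at h ⊢
    refine ⟨Y.up_left_mem hle'.1 hle'.2 h.1, ?_⟩
    rintro ⟨h1, h2, h3⟩
    exact h.2 ⟨h1.trans hle'.1, h2.trans hle'.2,
      fun h4 => h3 (Y.up_left_mem (by omega) (by omega) h4)⟩

/-- Murnaghan-Nakayama: the signed number of ways to remove rim hooks of the lengths `ts`, in this
order, from `Y` such that nothing remains; the sign of a rim hook is `(-1) ^ leg` -/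
noncomputable def chiAux : List ℕ → YoungDiagram → ℤ
  | [], Y => if Y.cells = ∅ then 1 else 0
  | t :: ts, Y => ∑ c ∈ Y.cells.filter (fun c => hookLen Y c.1 c.2 = t),
      (-1) ^ leg Y c.1 c.2 * chiAux ts (rem Y c.1 c.2)

/-- the value of the irreducible character of `Y` at the cycle type `μ` (Murnaghan-Nakayama rule,
largest part first) -/
noncomputable def chi (Y : YoungDiagram) {n : ℕ} (μ : n.Partition) : ℤ :=
  chiAux (μ.parts.sort (· ≥ ·)) Y

/-- the number of partitions of `n` -/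
def pp (n : ℕ) : ℕ := Fintype.card n.Partition

/-- the zero at `(Y, μ)` is of type I: `Y` is a core for the largest part of `μ` -/
def TypeI (Y : YoungDiagram) {n : ℕ} (μ : n.Partition) : Prop :=
  ∃ t ∈ μ.parts, (∀ s ∈ μ.parts, s ≤ t) ∧ IsCore t Y

/-- the zero at `(Y, μ)` is forced by at most `k` parts of `μ`: there is a multiset `M` of at most
`k` parts of `μ` such that the character of `Y` vanishes at all cycle types which contain `M` -/
def Forced (k : ℕ) (Y : YoungDiagram) {n : ℕ} (μ : n.Partition) : Prop :=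
  ∃ M : Multiset ℕ, M ≤ μ.parts ∧ M.card ≤ k ∧ ∀ μ' : n.Partition, M ≤ μ'.parts → chi Y μ' = 0

/-- density of the zeros of type I -/
noncomputable def zI (n : ℕ) : ℝ :=
  ({P : YoungDiagram × n.Partition | P.1.card = n ∧ TypeI P.1 P.2}.ncard : ℝ) / (pp n : ℝ) ^ 2

/-- density of the zeros which are forced by at most `k` parts -/
noncomputable def zL (k n : ℕ) : ℝ :=
  ({P : YoungDiagram × n.Partition | P.1.card = n ∧ Forced k P.1 P.2}.ncard : ℝ) / (pp n : ℝ) ^ 2

/-- density of all zeros of the character table -/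
noncomputable def zz (n : ℕ) : ℝ :=
  ({P : YoungDiagram × n.Partition | P.1.card = n ∧ chi P.1 P.2 = 0}.ncard : ℝ) / (pp n : ℝ) ^ 2

theorem rem_eq (Y : YoungDiagram) (i j : ℕ) : rem Y i j = ZT68.rem Y i j := rfl

theorem chiAux_eq (ts : List ℕ) : ∀ Y : YoungDiagram, chiAux ts Y = ZT68.chiAux ts Y := by
  induction ts with
  | nil => intro Y; rfl
  | cons t ts ih =>
    intro Y
    show ∑ c ∈ Y.cells.filter (fun c => hookLen Y c.1 c.2 = t),
      (-1) ^ leg Y c.1 c.2 * chiAux ts (rem Y c.1 c.2) =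
      ∑ c ∈ Y.cells.filter (fun c => ZT68.hookLen Y c.1 c.2 = t),
      (-1) ^ ZT68.leg Y c.1 c.2 * ZT68.chiAux ts (ZT68.rem Y c.1 c.2)
    refine Finset.sum_congr rfl fun c _ => ?_
    rw [ih, rem_eq]
    rfl

theorem chi_eq (Y : YoungDiagram) {n : ℕ} (μ : n.Partition) : chi Y μ = ZT68.chi Y μ :=
  chiAux_eq _ Y

theorem zI_eq (n : ℕ) : zI n = ZT68.zI n := rfl

theorem zz_eq (n : ℕ) : zz n = ZT68.zz n := by
  unfold zz ZT68.zz
  simp only [chi_eq]
  rfl

theorem zL_eq (k n : ℕ) : zL k n = ZT68.zL k n := by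
  unfold zL ZT68.zL Forced ZT68.Loc
  simp only [chi_eq]
  rfl

/-- Zeros which are forced by at most `c √n` cycles are asymptotically of type I, with the exact
second order term. -/
theorem result : (∀ k n : ℕ, zL k n ≤ zz n) ∧
    ∃ c : ℝ, 0 < c ∧ ∀ ε : ℝ, 0 < ε → ∃ N : ℕ, ∀ n ≥ N, ∀ k : ℕ, 1 ≤ k →
      (k : ℝ) ≤ c * √(n : ℝ) → |(1 - zI n / zL k n) * Real.log n - 1| ≤ ε := by
  refine ⟨fun k n => ?_, ?_⟩
  · rw [zL_eq, zz_eq]
    exact ZT68.ST2_zL_le_zz k n
  obtain ⟨c, hc, h⟩ := ZT68.all_ratio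
  refine ⟨c, hc, fun ε hε => ?_⟩
  obtain ⟨N, hN⟩ := h ε hε
  refine ⟨N, fun n hn k hk hkc => ?_⟩
  rw [zL_eq, zI_eq]
  exact hN n hn k hk hkc

end Pool.Agent.Results.MP_1882ea_al.LocalZeros
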